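import Pool.Agent.Work.MP_223b32_FY.Interface2

/-!
# Block GRP2 (MP_223b32_ag): the intersection of normal subgroups which act nontrivially
-/

set_option autoImplicit false

namespace Pool.Agent.Work.FY

/-- two more points -/
theorem GRP2.two_more {X : Type} [Fintype X] [DecidableEq X] (h5 : 5 ≤ Fintype.card X) (x y : X) :
    ∃ z w : X, z ≠ x ∧ z ≠ y ∧ w ≠ x ∧ w ≠ y ∧ z ≠ w := by
  have key : ∀ T : Finset X, T.card ≤ 3 → ∃ z : X, z ∉ T := by
    intro T hT
    by_contra hcon
    push Not at hcon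
    have h1 : (Finset.univ : Finset X) ⊆ T := fun z _ => hcon z
    have h2 := Finset.card_le_card h1
    rw [Finset.card_univ] at h2
    omega
  obtain ⟨z, hz⟩ := key {x, y} (Finset.card_le_two.trans (by norm_num))
  obtain ⟨w, hw⟩ := key {x, y, z} Finset.card_le_three
  simp only [Finset.mem_insert, Finset.mem_singleton, not_or] at hz hw
  exact ⟨z, w, hz.1, hz.2, hw.1, hw.2.1, fun h => hw.2.2 h.symm⟩

/-- a normal subgroup with nontrivial image maps onto a group containing the alternating group -/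
theorem GRP2.nontriv_map {G X : Type} [Group G] [Finite G] [Fintype X] [DecidableEq X]
    (φ : G →* Equiv.Perm X) (h5 : 5 ≤ Fintype.card X) (hA : alternatingGroup X ≤ φ.range)
    (N : Subgroup G) (hN : N.Normal) (hσ : ∃ σ ∈ N, φ σ ≠ 1) :
    alternatingGroup X ≤ N.map φ := by
  have hnon : Nontrivial X := Fintype.one_lt_card_iff_nontrivial.mp (by omega)
  have hnormal : ((N.map φ).subgroupOf (alternatingGroup X)).Normal := by
    constructor
    rintro ⟨n, hn⟩ hn' ⟨a, ha⟩
    rw [Subgroup.mem_subgroupOf] at hn' ⊢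
    obtain ⟨g, hg⟩ := hA ha
    obtain ⟨p, hp, hp'⟩ := hn'
    refine ⟨g * p * g⁻¹, hN.conj_mem p hp g, ?_⟩
    simp only [map_mul, map_inv, hg, hp']
    rfl
  have h5' : 5 ≤ Nat.card X := by rwa [Nat.card_eq_fintype_card]
  rcases alternatingGroup.normal_subgroup_eq_bot_or_eq_top h5'
    (N := (N.map φ).subgroupOf (alternatingGroup X)) with h | h
  · exfalso
    obtain ⟨σ, hσN, hσ1⟩ := hσ
    -- the image commutes with the alternating group
    have hcomm : ∀ a ∈ alternatingGroup X, φ σ * a = a * φ σ := by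
      intro a ha
      obtain ⟨g, hg⟩ := hA ha
      have h1 : φ σ * a * (φ σ)⁻¹ * a⁻¹ ∈ N.map φ := by
        refine ⟨σ * (g * σ⁻¹ * g⁻¹), N.mul_mem hσN (hN.conj_mem _ (N.inv_mem hσN) g), ?_⟩
        simp only [map_mul, map_inv, hg]
        group
      have h2 : φ σ * a * (φ σ)⁻¹ * a⁻¹ ∈ alternatingGroup X := by
        rw [Equiv.Perm.mem_alternatingGroup]
        simp only [Equiv.Perm.sign_mul, Equiv.Perm.sign_inv]
        rw [mul_right_comm (Equiv.Perm.sign (φ σ)), Int.units_mul_self, one_mul,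
          Int.units_mul_self]
      have h3 : (⟨φ σ * a * (φ σ)⁻¹ * a⁻¹, h2⟩ : alternatingGroup X) ∈
          (N.map φ).subgroupOf (alternatingGroup X) := by
        rw [Subgroup.mem_subgroupOf]
        exact h1
      rw [h, Subgroup.mem_bot] at h3
      have h4 : φ σ * a * (φ σ)⁻¹ * a⁻¹ = 1 := congrArg Subtype.val h3
      have h5 : φ σ * a * (φ σ)⁻¹ = a := mul_inv_eq_one.mp h4
      exact mul_inv_eq_iff_eq_mul.mp h5
    obtain ⟨x, hx⟩ : ∃ x, φ σ x ≠ x := by
      by_contra hcon
      push Not at hcon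
      exact hσ1 (Equiv.ext hcon)
    obtain ⟨z, w, hzx, hzy, hwx, hwy, hzw⟩ := GRP2.two_more h5 x (φ σ x)
    have h3c : Equiv.Perm.IsThreeCycle (Equiv.swap (φ σ x) z * Equiv.swap (φ σ x) w) :=
      Equiv.Perm.isThreeCycle_swap_mul_swap_same hzy.symm hwy.symm hzw
    have h6 := hcomm _ h3c.mem_alternatingGroup
    have h7 := congrArg (fun p : Equiv.Perm X => p x) h6
    simp only [Equiv.Perm.mul_apply] at h7
    rw [Equiv.swap_apply_of_ne_of_ne hx.symm hwx.symm,
      Equiv.swap_apply_of_ne_of_ne hx.symm hzx.symm, Equiv.swap_apply_left,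
      Equiv.swap_apply_of_ne_of_ne hwy hzw.symm] at h7
    exact hwy h7.symm
  · exact Subgroup.subgroupOf_eq_top.mp h

theorem stmt_GRP2 : Stmt_GRP2 := by
  intro G X _ _ _ _ φ h5 hA I S N hN x
  classical
  have h5' : 5 ≤ Nat.card X := by rwa [Nat.card_eq_fintype_card]
  have key : ∀ T : Finset I, T ⊆ S → ∃ M : Subgroup G, M.Normal ∧ (∀ i ∈ T, M ≤ N i) ∧
      alternatingGroup X ≤ M.map φ := by
    intro T
    induction T using Finset.induction_on with
    | empty =>
      intro _
      refine ⟨⊤, inferInstance, by simp, ?_⟩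
      rwa [← MonoidHom.range_eq_map]
    | insert j T hj ih =>
      intro hT
      obtain ⟨M, hM, hMN, hMA⟩ := ih (fun i hi => hT (Finset.mem_insert_of_mem hi))
      obtain ⟨hNj, hσ⟩ := hN j (hT (Finset.mem_insert_self _ _))
      have h1 := GRP2.nontriv_map φ h5 hA (N j) hNj hσ
      refine ⟨M ⊓ N j, inferInstance, ?_, ?_⟩
      · intro i hi
        rw [Finset.mem_insert] at hi
        rcases hi with rfl | hi
        · exact inf_le_right
        · exact inf_le_left.trans (hMN i hi)
      · calc alternatingGroup X = ⁅alternatingGroup X, alternatingGroup X⁆ :=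
              (commutator_alternatingGroup_eq_self h5').symm
          _ ≤ ⁅M.map φ, (N j).map φ⁆ := Subgroup.commutator_mono hMA h1
          _ = ⁅M, N j⁆.map φ := (Subgroup.map_commutator M (N j) φ).symm
          _ ≤ (M ⊓ N j).map φ := Subgroup.map_mono (Subgroup.commutator_le_inf M (N j))
  obtain ⟨M, _, hMN, hMA⟩ := key S subset_rfl
  obtain ⟨y, z, hyx, -, hzx, -, hyz⟩ := GRP2.two_more h5 x x
  have h3c : Equiv.Perm.IsThreeCycle (Equiv.swap x y * Equiv.swap x z) :=
    Equiv.Perm.isThreeCycle_swap_mul_swap_same hyx.symm hzx.symm hyz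
  obtain ⟨τ, hτ, hτ'⟩ := hMA h3c.mem_alternatingGroup
  refine ⟨τ, fun i hi => hMN i hi hτ, ?_⟩
  rw [hτ', Equiv.Perm.mul_apply, Equiv.swap_apply_left,
    Equiv.swap_apply_of_ne_of_ne hzx hyz.symm]
  exact hzx

end Pool.Agent.Work.FY
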